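import Pool.Agent.H35.TC.All

/-!
# MP_037fc8_mp : the Thomas-Fermi energy of a dilated molecule

`E3 = EuclideanSpace ℝ (Fin 3)`, `En γ R z N = sInf {tf γ R z ρ | Density N ρ}` is the energy `E(N; R)` (see `Pool/Agent/H50/TM/Defs.lean` and
`Pool/Agent/H23/TF/Defs.lean`), and `En γ (fun i => l • R i) z N` is `E(N, l)` of the problem.
-/

set_option autoImplicit false

open MeasureTheory Set

namespace Pool.Agent.Results.MP_037fc8_mp.TFDilation

open Pool.Agent.H23.TF Pool.Agent.H50.TM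

/-- For every molecule and every `N` between `0` and `Z` the energy `E(N, l)` is strictly decreasing in the dilation parameter `l`. It is convex in `l`: everywhere,
if `N` is below a bound `N0` that depends on the charges only; for `l > L/D`, `D` the least distance of two nuclei, `L` independent of the positions; where it is
nonnegative, which contains an interval `(0, l0]`; everywhere for two equal nuclei. -/
theorem result (k : ℕ) (hk : 2 ≤ k) (z : Fin k → ℝ) (hz : ∀ i, 0 < z i) :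
    ∃ N0 : ℝ, 0 < N0 ∧ N0 ≤ ∑ i, z i ∧
      ∀ γ N : ℝ, 0 < γ → 0 < N → N < ∑ i, z i → ∃ L : ℝ, 0 < L ∧ ∀ R : Fin k → E3, Function.Injective R →
        (∀ l : ℝ, {e | ∃ ρ, Density N ρ ∧ e = tf γ (fun i => l • R i) z ρ}.Nonempty ∧
          BddBelow {e | ∃ ρ, Density N ρ ∧ e = tf γ (fun i => l • R i) z ρ}) ∧
        StrictAntiOn (fun l : ℝ => En γ (fun i => l • R i) z N) (Ioi 0) ∧
        (N < N0 → ConvexOn ℝ (Ioi 0) (fun l : ℝ => En γ (fun i => l • R i) z N)) ∧
        (∀ D : ℝ, 0 < D → (∀ i j, i ≠ j → D ≤ ‖R i - R j‖) →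
          ConvexOn ℝ (Ioi (L / D)) (fun l : ℝ => En γ (fun i => l • R i) z N)) ∧
        ConvexOn ℝ {l : ℝ | 0 < l ∧ 0 ≤ En γ (fun i => l • R i) z N} (fun l : ℝ => En γ (fun i => l • R i) z N) ∧
        (∃ l0 : ℝ, 0 < l0 ∧ ∀ l : ℝ, 0 < l → l ≤ l0 → 0 ≤ En γ (fun i => l • R i) z N) ∧
        (k = 2 → (∀ i j, z i = z j) → ConvexOn ℝ (Ioi 0) (fun l : ℝ => En γ (fun i => l • R i) z N)) :=
  Pool.Agent.H35.TC.dilation_all k hk z hz

end Pool.Agent.Results.MP_037fc8_mp.TFDilation
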