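import Pool.Agent.H50.TM.Main

/-!
# MP_037fc8_mp : the Thomas-Fermi energy decreases when the nuclei are separated in a direction

`E3 = EuclideanSpace ℝ (Fin 3)`, `En γ R z N = sInf {tf γ R z ρ | Density N ρ}` is the energy `E(N; R)` (see `Pool/Agent/H50/TM/Defs.lean` and
`Pool/Agent/H23/TF/Defs.lean`).
-/

set_option autoImplicit false

open MeasureTheory Set

namespace Pool.Agent.Results.MP_037fc8_mp.TFSeparation

open Pool.Agent.H23.TF Pool.Agent.H50.TM

/-- For every molecule and every `N` between `0` and `Z`: if each nucleus `R i` is moved by `a (⟪n, R i⟫)` in the direction of the unit vector `n`, where `a` is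
a monotone function, then the energy does not increase, and it decreases strictly unless all nuclei are moved by the same amount. -/
theorem result (γ : ℝ) (hγ : 0 < γ) (k : ℕ) (R : Fin k → E3) (hR : Function.Injective R) (z : Fin k → ℝ)
    (hz : ∀ i, 0 < z i) (N : ℝ) (hN : 0 < N) (hNZ : N < ∑ i, z i) (n : E3) (hn : ‖n‖ = 1) (a : ℝ → ℝ) (ha : Monotone a) :
    (∀ R' : Fin k → E3, {e | ∃ ρ, Density N ρ ∧ e = tf γ R' z ρ}.Nonempty ∧ BddBelow {e | ∃ ρ, Density N ρ ∧ e = tf γ R' z ρ}) ∧
    En γ (fun i => R i + a (inner ℝ n (R i)) • n) z N ≤ En γ R z N ∧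
      ((∃ i j, a (inner ℝ n (R i)) ≠ a (inner ℝ n (R j))) → En γ (fun i => R i + a (inner ℝ n (R i)) • n) z N < En γ R z N) :=
  ⟨fun R' => inf_real hγ R' hz hN.le, separation_thm γ hγ k R hR z hz N hN hNZ n hn a ha⟩

end Pool.Agent.Results.MP_037fc8_mp.TFSeparation
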